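import Pool.Agent.H264R2.Bounds

set_option autoImplicit false

namespace Pool.Agent.Results.MP_fcf645_co.UpperBound

open Finset Pool.Agent.H264R2.Pigeon

/-- Euclidean distance of two lattice points. -/
noncomputable def eucl (a b : ℤ × ℤ) : ℝ :=
  Real.sqrt (((a.1 : ℝ) - b.1) ^ 2 + ((a.2 : ℝ) - b.2) ^ 2)

/-- The grid `[N]²`. -/
noncomputable def grid (N : ℕ) : Finset (ℤ × ℤ) := Finset.Icc (1 : ℤ) N ×ˢ Finset.Icc (1 : ℤ) N

/-- No three pairwise distinct points `a, b, c` with `|a - b| = |a - c|` (degenerate triangles included). -/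
def IsoscelesFree (A : Finset (ℤ × ℤ)) : Prop :=
  ∀ a ∈ A, ∀ b ∈ A, ∀ c ∈ A, a ≠ b → a ≠ c → b ≠ c → eucl a b ≠ eucl a c

open Classical in
/-- The largest size of a subset of `[N]²` without isosceles triangles. -/
noncomputable def fmax (N : ℕ) : ℕ :=
  ((grid N).powerset.filter IsoscelesFree).sup Finset.card

lemma eucl_eq_of_nd {x y : (ℤ × ℤ) × (ℤ × ℤ)} (h : nd x = nd y) : eucl x.1 x.2 = eucl y.1 y.2 := by
  have h1 := nd_cast x
  have h2 := nd_cast y
  rw [h] at h1
  have h3 : N2 (x.1 - x.2) = N2 (y.1 - y.2) := h1.symm.trans h2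
  unfold N2 at h3
  simp only [Prod.fst_sub, Prod.snd_sub] at h3
  unfold eucl
  congr 1
  exact_mod_cast h3

lemma card_le {S : Finset (ℤ × ℤ)} (hS : IsoscelesFree S) (m : ℕ) (hm : 0 < m) :
    ((S ×ˢ S).filter (fun x => nd x = m)).card ≤ S.card := by
  classical
  apply Finset.card_le_card_of_injOn Prod.fst
  · intro x hx
    simp only [coe_filter, mem_product, Set.mem_ofPred_eq] at hx
    exact hx.1.1
  · intro x hx y hy hxy
    simp only [coe_filter, mem_product, Set.mem_ofPred_eq] at hx hy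
    have hne : ∀ z : (ℤ × ℤ) × (ℤ × ℤ), nd z = m → z.1 ≠ z.2 := by
      intro z hz h
      have h1 := nd_cast z
      rw [h, sub_self, hz] at h1
      have : N2 (0 : ℤ × ℤ) = 0 := by simp [N2]
      rw [this] at h1
      omega
    have he := eucl_eq_of_nd (hx.2.trans hy.2.symm)
    by_contra hxy2
    have h2 : x.2 ≠ y.2 := fun h => hxy2 (Prod.ext hxy h)
    have hy1 := hne y hy.2
    rw [← hxy] at he hy1
    exact hS x.1 hx.1.1 x.2 hx.1.2 y.2 hy.1.2 (hne x hx.2) hy1 h2 he

/-- Subsets of `[N]²` without isosceles triangles have at most `N ^ (2 - c / log log N)` points,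
with `c = 1/200`, for all large `N`. -/
theorem result : ∃ N₀ : ℕ, ∀ N : ℕ, N₀ ≤ N →
    (fmax N : ℝ) ≤ (N : ℝ) ^ (2 - 1 / 200 / Real.log (Real.log N)) := by
  classical
  obtain ⟨n₀, h⟩ := Pool.Agent.H264R2.Bounds.iso
  refine ⟨n₀, fun n hn => ?_⟩
  have hne : ((grid n).powerset.filter IsoscelesFree).Nonempty := by
    refine ⟨∅, ?_⟩
    rw [mem_filter, mem_powerset]
    exact ⟨Finset.empty_subset _, fun a ha => absurd ha (Finset.notMem_empty a)⟩
  obtain ⟨S, hS, hcard⟩ := Finset.exists_mem_eq_sup _ hne Finset.card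
  have hk : fmax n = S.card := by
    unfold fmax
    convert hcard
  rw [hk]
  rw [mem_filter, mem_powerset] at hS
  apply h n hn S
  · intro a ha
    have := hS.1 ha
    rw [grid, mem_product, mem_Icc, mem_Icc] at this
    exact this
  · intro m hm
    exact card_le hS.2 m hm

end Pool.Agent.Results.MP_fcf645_co.UpperBound
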